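import Pool.Agent.Hhelper14.SAW.Defs

/-!
Self-avoiding paths on the honeycomb lattice wrapped around a cylinder.

`V` is the honeycomb lattice (edges of length `1`, `0` is a vertex), column `j` = vertices with `Re z = 3j/2` or
`(3j+1)/2`. The translation by `i √3` is a symmetry of `V`; the cylinder of circumference `√3 L` is `V` modulo the
translation by `i √3 L`. A path on the cylinder which starts at the vertex `0` is written as the list of the vertices of
its lift to `V`.
-/

namespace Pool.Agent.CYL.Plane

open Pool.Agent.Hhelper14.Honeycomb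

/-- `z` and `z'` are the same point of the cylinder of circumference `√3 L`. -/
def Same (L : ℕ) (z z' : ℂ) : Prop := ∃ k : ℤ, z' = z + k * (Real.sqrt 3 * L * Complex.I)

/-- The self-avoiding paths `w = (w_0, ..., w_n)` (any `n`) on the cylinder of circumference `√3 L` which start at
`w_0 = 0`, stay in the `N` columns `0 ≤ Re z ≤ (3N-2)/2` and end on the other side, `Re w_n = (3N-2)/2`. -/
def Cross (L N : ℕ) : Set (List ℂ) :=
  {w | w.head? = some 0 ∧ (∀ z ∈ w, z ∈ V ∧ 0 ≤ z.re ∧ z.re ≤ (3 * N - 2) / 2) ∧
    w.IsChain (fun x y => dist x y = 1) ∧ w.Pairwise (fun x y => ¬ Same L x y) ∧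
    ∀ z ∈ w.getLast?, z.re = (3 * N - 2) / 2}

/-- The critical weight `μ_L^(-number of vertices)`. -/
noncomputable def wt (w : List ℂ) : ℝ := (1 / muL) ^ w.length

/-- The pairs `(w, w')` of crossing paths, both from `0`, with `w{1,...} ∩ w'{0,...} = ∅` on the cylinder. -/
def Avoid (L N : ℕ) : Set (List ℂ × List ℂ) :=
  {q | q.1 ∈ Cross L N ∧ q.2 ∈ Cross L N ∧ ∀ z ∈ q.1.tail, ∀ z' ∈ q.2, ¬ Same L z z'}

/-- The probability that `w{1,...}` and `w'{0,...}` are disjoint, for two independent critical crossing paths `w, w'`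
(each value has probability proportional to its weight). -/
noncomputable def P (L N : ℕ) : ℝ :=
  (∑' q : Avoid L N, wt q.1.1 * wt q.1.2) / (∑' w : Cross L N, wt w.1) ^ 2

end Pool.Agent.CYL.Plane
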