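import Pool.Agent.CYL.Def
import Pool.Agent.QL.Defs
import Pool.Agent.Hhelper14.SAW.Defs

/-!
# CYL part D: definitions

Crossing paths of the honeycomb cylinder (graph `CV L`, `CP` of `QL/Defs`) and the final statement.
The cylinder of `N` rows: rows `0, .., N-1` counted from the top; bottom vertices `ub N c`, top vertices `ut e`.
-/

namespace Pool.Agent.CYL

open Pool.Agent.Hhelper14.SAW Pool.Agent.HHP Pool.Agent.QL Pool.Agent.BEX
open scoped ENNReal

/-- The vertex at the bottom leg `c` of the cylinder of `N` rows. -/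
def ub {L : ℕ} (N : ℕ) (c : Fin L) : CV L := ((N : ℤ) - 1, c, false)

/-- The vertex at the top leg `e`. -/
def ut {L : ℕ} (e : Fin L) : CV L := (0, e, true)

/-- Families of `l` pairwise disjoint crossing paths, the `k`-th from the bottom leg `c k` to the top leg `e k`. -/
def Fam {L l : ℕ} (N : ℕ) (c e : Fin l → Fin L) (g : Fin l → List (CV L)) : Prop :=
  (∀ k, CP N (ub N (c k)) (ut (e k)) (g k)) ∧ ∀ k k', k ≠ k' → List.Disjoint (g k) (g k')

/-- Their mass. -/
noncomputable def fm {L l : ℕ} (N : ℕ) (c e : Fin l → Fin L) : ℝ≥0∞ :=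
  ∑' g : {g : Fin l → List (CV L) // Fam N c e g}, xE ^ (∑ k, (g.1 k).length)

/-- The through-state: `s k` joined to the point at infinity `k`, the other sites empty. -/
noncomputable def th {L l : ℕ} (s : Fin l → Fin L) : Lb L l → Lb L l
  | Sum.inl i => open Classical in if h : ∃ k, s k = i then Sum.inr h.choose else Sum.inl i
  | Sum.inr k => Sum.inl (s k)

/-- Mass of the ordered families of `l` disjoint crossing paths of `N` rows. -/
noncomputable def Zc (L l N : ℕ) : ℝ≥0∞ :=
  open Classical in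
  ∑ c : Fin l → Fin L, ∑ e : Fin l → Fin L,
    if Function.Injective c ∧ Function.Injective e then fm N c e else 0

end Pool.Agent.CYL

/-! ### The final statement -/

namespace Pool.Agent.CYL.Q

open Pool.Agent.Hhelper14.Honeycomb

/-- The same point of the cylinder `ℂ / (i √3 L ℤ)`, of circumference `√3 L` (`L` hexagons). -/
def Same (L : ℕ) (x y : ℂ) : Prop := ∃ k : ℤ, x - y = k * (Real.sqrt 3 * L) * Complex.I

/-- Self-avoiding paths `w = (w_0, ..., w_n)` (written as lists) of the honeycomb lattice on the cylinder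
`ℂ / (i √3 L ℤ)` which cross `N` columns of hexagons: all vertices in `0 ≤ Re z ≤ (3N-2)/2`, `Re w_0 = 0`,
`Re w_n = (3N-2)/2`; the path is written in the covering strip with `0 ≤ Im w_0 < √3 L`. -/
def Cross (L N : ℕ) : Set (List ℂ) :=
  {w | (∀ z ∈ w, z ∈ V ∧ 0 ≤ z.re ∧ z.re ≤ (3 * N - 2) / 2) ∧
    w.IsChain (fun x y => dist x y = 1) ∧ (w.Pairwise fun x y => ¬ Same L x y) ∧
    (∃ z ∈ w.head?, z.re = 0 ∧ 0 ≤ z.im ∧ z.im < Real.sqrt 3 * L) ∧ ∀ z ∈ w.getLast?, z.re = (3 * N - 2) / 2}

/-- The critical weight `μ_L^(-number of vertices)`. -/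
noncomputable def wt (w : List ℂ) : ℝ := (1 / muL) ^ w.length

/-- The pairs of crossing paths which are disjoint on the cylinder. -/
def Disj (L N : ℕ) : Set (List ℂ × List ℂ) :=
  {q | q.1 ∈ Cross L N ∧ q.2 ∈ Cross L N ∧ ∀ z ∈ q.1, ∀ z' ∈ q.2, ¬ Same L z z'}

/-- The probability that two independent critical crossing paths are disjoint. -/
noncomputable def P (L N : ℕ) : ℝ :=
  (∑' q : Disj L N, wt q.1.1 * wt q.1.2) / (∑' w : Cross L N, wt w) ^ 2

end Pool.Agent.CYL.Q
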