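import Pool.Agent.CYL.D.Def

/-!
# CYL part D: final assembly (real analysis)
-/

namespace Pool.Agent.CYL

open Pool.Agent.Hhelper14.SAW Pool.Agent.HHP Pool.Agent.QL Pool.Agent.BEX
open scoped ENNReal Topology
open Filter

lemma Q.wt_pos (w : List ℂ) (h : 0 < Pool.Agent.Hhelper14.Honeycomb.muL) : 0 < Q.wt w := by
  unfold Q.wt; positivity

/-- From an `ENNReal` sum to a real sum. -/
lemma tsum_of {ι : Type*} {f : ι → ℝ} (hf : ∀ i, 0 ≤ f i) {z : ℝ≥0∞} (h : ∑' i, ENNReal.ofReal (f i) = z)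
    (hz : z ≠ ⊤) : Summable f ∧ ∑' i, f i = z.toReal := by
  have hs : Summable f := by
    have := ENNReal.summable_toReal (f := fun i => ENNReal.ofReal (f i)) (h ▸ hz)
    refine this.congr fun i => ?_
    simp [ENNReal.toReal_ofReal (hf i)]
  refine ⟨hs, ?_⟩
  rw [← h, ← ENNReal.ofReal_tsum_of_nonneg hf hs, ENNReal.toReal_ofReal (tsum_nonneg hf)]

/-- Assembly: `lg l k` is the logarithm of the growth rate of the mass of `l` disjoint crossing paths for `L = 2^k`. -/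
theorem fin_of (lg : ℕ → ℕ → ℝ)
    (hmu : 0 < Pool.Agent.Hhelper14.Honeycomb.muL)
    (cov1 : ∀ L N : ℕ, 2 ≤ L → 1 ≤ N → ∑' w : Q.Cross L N, ENNReal.ofReal (Q.wt w.1) = Zc L 1 N)
    (cov2 : ∀ L N : ℕ, 2 ≤ L → 1 ≤ N →
      ∑' q : Q.Disj L N, ENNReal.ofReal (Q.wt q.1.1 * Q.wt q.1.2) = Zc L 2 N)
    (hfin : ∀ l, l = 1 ∨ l = 2 → ∀ L N : ℕ, 2 ≤ L → 1 ≤ N → Zc L l N ≠ ⊤)
    (hpos : ∀ l, l = 1 ∨ l = 2 → ∀ L N : ℕ, 2 ≤ L → 1 ≤ N → 0 < (Zc L l N).toReal)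
    (hlim : ∀ l, l = 1 ∨ l = 2 → ∀ k : ℕ, 1 ≤ k →
      Tendsto (fun N : ℕ => Real.log (Zc (2 ^ k) l N).toReal / N) atTop (𝓝 (lg l k)))
    (hC : ∀ l, l = 1 ∨ l = 2 →
      Tendsto (fun k : ℕ => (2 : ℝ) ^ k * lg l k) atTop (𝓝 (-(Real.sqrt 3 * Real.pi * (9 * (l : ℝ) ^ 2 - 4) / 48)))) :
    (∀ L N : ℕ, 2 ≤ L → 1 ≤ N → Summable fun w : Q.Cross L N => Q.wt w.1) ∧
    ∃ κ : ℕ → ℝ,
      (∀ k : ℕ, 1 ≤ k → Tendsto (fun N : ℕ => -Real.log (Q.P (2 ^ k) N) / N) atTop (𝓝 (κ k))) ∧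
      Tendsto (fun k : ℕ => (2 : ℝ) ^ k * κ k) atTop (𝓝 (11 / 24 * Real.sqrt 3 * Real.pi)) := by
  have hw : ∀ w, 0 ≤ Q.wt w := fun w => (Q.wt_pos w hmu).le
  refine ⟨fun L N hL hN => (tsum_of (fun w : Q.Cross L N => hw w.1) (cov1 L N hL hN) (hfin 1 (Or.inl rfl) L N hL hN)).1,
    fun k => 2 * lg 1 k - lg 2 k, fun k hk => ?_, ?_⟩
  · have h1 := (hlim 1 (Or.inl rfl) k hk).const_mul 2
    have h2 := h1.sub (hlim 2 (Or.inr rfl) k hk)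
    refine h2.congr' ?_
    filter_upwards [eventually_ge_atTop 1] with N hN
    have hL : 2 ≤ 2 ^ k := by
      calc 2 = 2 ^ 1 := rfl
        _ ≤ 2 ^ k := Nat.pow_le_pow_right (by norm_num) hk
    have e1 := (tsum_of (fun w : Q.Cross (2 ^ k) N => hw w.1) (cov1 _ N hL hN) (hfin 1 (Or.inl rfl) _ N hL hN)).2
    have e2 := (tsum_of (fun q : Q.Disj (2 ^ k) N => mul_nonneg (hw q.1.1) (hw q.1.2)) (cov2 _ N hL hN)
      (hfin 2 (Or.inr rfl) _ N hL hN)).2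
    have p1 := hpos 1 (Or.inl rfl) _ N hL hN
    have p2 := hpos 2 (Or.inr rfl) _ N hL hN
    unfold Q.P
    rw [e1, e2, Real.log_div p2.ne' (by positivity), Real.log_pow]
    push_cast
    ring
  · have h1 := (hC 1 (Or.inl rfl)).const_mul 2
    have h2 := h1.sub (hC 2 (Or.inr rfl))
    refine (h2.congr fun k => ?_).trans_eq ?_
    · ring
    · congr 1
      push_cast
      ring

end Pool.Agent.CYL
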