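import Pool.Agent.CYL.D.Last
import Pool.Agent.CYL.D.Cov.Main

/-!
# CYL part D: from the growth rates to the final statements

`Grow l L a`: the masses of `l` disjoint crossing paths (free starts, fixed starts) grow like `exp (a N)`.
`last_pow`: circumferences `L = 2^k`; `last_all`: all `L`.
-/

namespace Pool.Agent.CYL

open Pool.Agent.Hhelper14.SAW Pool.Agent.HHP Pool.Agent.QL Pool.Agent.BEX
open scoped ENNReal Topology
open Filter

/-- Growth rate `a` of the mass of `l` disjoint crossing paths on the cylinder of `L` hexagons. -/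
def Grow (l L : ℕ) (a : ℝ) : Prop :=
  Tendsto (fun N : ℕ => Real.log (Zc L l N).toReal / N) atTop (𝓝 a) ∧
    ∀ c : Fin l → Fin L, Function.Injective c →
      Tendsto (fun N : ℕ => Real.log (∑ e, fm N c e).toReal / N) atTop (𝓝 a)

lemma Grow.unique {l L : ℕ} {a b : ℝ} (h : Grow l L a) (h' : Grow l L b) : a = b :=
  tendsto_nhds_unique h.1 h'.1

theorem final_cov1 (L N : ℕ) (hL : 2 ≤ L) (_ : 1 ≤ N) (c : Fin L) :
    ∑' w : Plane.Cross L N, ENNReal.ofReal (Plane.wt w.1) = ∑ e, cm N (ub N c) (ut e) :=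
  DC.cover_one hL N c

theorem final_cov2 (L N : ℕ) (hL : 2 ≤ L) (_ : 1 ≤ N) (c : Fin L) :
    ∑' q : Plane.Avoid L N, ENNReal.ofReal (Plane.wt q.1.1 * Plane.wt q.1.2) = vm N c :=
  DC.cover_two hL N c

/-- The final statement with the growth rates `lg l L`. -/
theorem last_gen (lg : ℕ → ℕ → ℝ) (hg : ∀ l, l = 1 ∨ l = 2 → ∀ L : ℕ, 3 ≤ L → Grow l L (lg l L)) :
    (∀ L N : ℕ, 2 ≤ L → 1 ≤ N → Summable fun w : Plane.Cross L N => Plane.wt w.1) ∧
      ∀ L : ℕ, 3 ≤ L → Tendsto (fun N : ℕ => -Real.log (Plane.P L N) / N) atTop (𝓝 (2 * lg 1 L - lg 2 L)) := by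
  have hcm : ∀ (L N : ℕ) (c : Fin L), ∑ e : Fin L, cm N (ub N c) (ut e) ≠ ⊤ := fun L N c =>
    ENNReal.sum_ne_top.2 fun e _ => ne_top_of_le_ne_top ENNReal.one_ne_top (cm_cross_le N c e)
  refine ⟨fun L N hL hN => ?_, fun L hL => ?_⟩
  · exact (Last.tsum_of (fun w : Plane.Cross L N => Last.wt_nonneg w.1) (final_cov1 L N hL hN ⟨0, by omega⟩)
      (hcm L N _)).1
  · set c : Fin L := ⟨0, by omega⟩ with hc
    have hinj : Function.Injective ![c, md c 1] := by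
      have := Same.md_ne (by omega : 2 ≤ L) c
      intro i j hij
      fin_cases i <;> fin_cases j <;> simp_all
    obtain ⟨hpos, hv⟩ := Last.vm_rate hL c (hg 2 (Or.inr rfl) L hL).1 ((hg 2 (Or.inr rfl) L hL).2 _ hinj)
    have hinj1 : Function.Injective (fun _ : Fin 1 => c) := Function.injective_of_subsingleton _
    have h1 := (hg 1 (Or.inl rfl) L hL).2 _ hinj1
    have e1 : ∀ N, ∑ e : Fin 1 → Fin L, fm N (fun _ : Fin 1 => c) e = ∑ e : Fin L, cm N (ub N c) (ut e) := by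
      intro N
      rw [← (Equiv.funUnique (Fin 1) (Fin L)).symm.sum_comp]
      refine Finset.sum_congr rfl fun e _ => ?_
      rw [fm_one]
      rfl
    simp_rw [e1] at h1
    have h2 := (h1.const_mul 2).sub hv
    refine h2.congr' ?_
    filter_upwards [hpos, eventually_ge_atTop 1] with N hN hN1
    have a1 := (Last.tsum_of (fun w : Plane.Cross L N => Last.wt_nonneg w.1)
      (final_cov1 L N (by omega) hN1 c) (hcm L N _)).2
    have a2 := (Last.tsum_of (fun q : Plane.Avoid L N => mul_nonneg (Last.wt_nonneg q.1.1) (Last.wt_nonneg q.1.2))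
      (final_cov2 L N (by omega) hN1 c)
      (ne_top_of_le_ne_top (ENNReal.mul_ne_top (by norm_num) (Zc_two_ne_top L N)) (vm_le (by omega) N c))).2
    have p1 : 0 < (∑ e : Fin L, cm N (ub N c) (ut e)).toReal := by
      rw [← e1]
      exact sum_fm_real_pos (Or.inl rfl) hinj1 hN1
    unfold Plane.P
    rw [a1, a2, Real.log_div hN.ne' (by positivity), Real.log_pow]
    push_cast
    ring

/-- Final statement, circumferences `2^k`. -/
theorem last_pow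
    (hg : ∀ l, l = 1 ∨ l = 2 → ∀ L : ℕ, l < L → ∃ a, Grow l L a)
    (hC : ∀ l, l = 1 ∨ l = 2 → ∃ z : ℕ → ℝ,
      (∀ k, 2 ≤ k → Tendsto (fun N : ℕ => Real.log (Zc (2 ^ k) l N).toReal / N) atTop (𝓝 (z k))) ∧
      Tendsto (fun k => (2 : ℝ) ^ k * z k) atTop
        (𝓝 (-(Real.sqrt 3 * Real.pi * (9 * (l : ℝ) ^ 2 - 4) / 48)))) :
    (∀ L N : ℕ, 2 ≤ L → 1 ≤ N → Summable fun w : Plane.Cross L N => Plane.wt w.1) ∧
    ∃ κ : ℕ → ℝ,
      (∀ L : ℕ, 3 ≤ L → Tendsto (fun N : ℕ => -Real.log (Plane.P L N) / N) atTop (𝓝 (κ L))) ∧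
      Tendsto (fun k : ℕ => (2 : ℝ) ^ k * κ (2 ^ k)) atTop (𝓝 (11 / 24 * Real.sqrt 3 * Real.pi)) := by
  have key : ∀ l L : ℕ, ∃ a : ℝ, l = 1 ∨ l = 2 → l < L → Grow l L a := by
    intro l L
    by_cases h : (l = 1 ∨ l = 2) ∧ l < L
    · obtain ⟨a, ha⟩ := hg l h.1 L h.2
      exact ⟨a, fun _ _ => ha⟩
    · exact ⟨0, fun h1 h2 => absurd ⟨h1, h2⟩ h⟩
  choose lg hlg using key
  have hlg' : ∀ l, l = 1 ∨ l = 2 → ∀ L : ℕ, 3 ≤ L → Grow l L (lg l L) := by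
    intro l hl L hL
    exact hlg l L hl (by rcases hl with h | h <;> omega)
  obtain ⟨h1, h2⟩ := last_gen lg hlg'
  refine ⟨h1, fun L => 2 * lg 1 L - lg 2 L, h2, ?_⟩
  have h3 : ∀ l, l = 1 ∨ l = 2 → Tendsto (fun k : ℕ => (2 : ℝ) ^ k * lg l (2 ^ k)) atTop
      (𝓝 (-(Real.sqrt 3 * Real.pi * (9 * (l : ℝ) ^ 2 - 4) / 48))) := by
    intro l hl
    obtain ⟨z, hz, hz'⟩ := hC l hl
    refine hz'.congr' ?_
    filter_upwards [eventually_ge_atTop 2] with k hk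
    have hk3 : 3 ≤ 2 ^ k := by
      calc 3 ≤ 2 ^ 2 := by norm_num
        _ ≤ 2 ^ k := Nat.pow_le_pow_right (by norm_num) hk
    rw [tendsto_nhds_unique (hz k hk) (hlg' l hl _ hk3).1]
  have h4 := ((h3 1 (Or.inl rfl)).const_mul 2).sub (h3 2 (Or.inr rfl))
  refine (h4.congr fun k => ?_).trans_eq ?_
  · ring
  · congr 1
    push_cast
    ring

/-- Final statement, all circumferences. -/
theorem last_all
    (hg : ∀ l, l = 1 ∨ l = 2 → ∀ L : ℕ, l < L → ∃ a, Grow l L a)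
    (hC : ∀ l, l = 1 ∨ l = 2 → ∃ z : ℕ → ℝ,
      (∀ L, l < L → Tendsto (fun N : ℕ => Real.log (Zc L l N).toReal / N) atTop (𝓝 (z L))) ∧
      Tendsto (fun L : ℕ => (L : ℝ) * z L) atTop
        (𝓝 (-(Real.sqrt 3 * Real.pi * (9 * (l : ℝ) ^ 2 - 4) / 48)))) :
    (∀ L N : ℕ, 2 ≤ L → 1 ≤ N → Summable fun w : Plane.Cross L N => Plane.wt w.1) ∧
    ∃ κ : ℕ → ℝ,
      (∀ L : ℕ, 3 ≤ L → Tendsto (fun N : ℕ => -Real.log (Plane.P L N) / N) atTop (𝓝 (κ L))) ∧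
      Tendsto (fun L : ℕ => (L : ℝ) * κ L) atTop (𝓝 (11 / 24 * Real.sqrt 3 * Real.pi)) := by
  have key : ∀ l L : ℕ, ∃ a : ℝ, l = 1 ∨ l = 2 → l < L → Grow l L a := by
    intro l L
    by_cases h : (l = 1 ∨ l = 2) ∧ l < L
    · obtain ⟨a, ha⟩ := hg l h.1 L h.2
      exact ⟨a, fun _ _ => ha⟩
    · exact ⟨0, fun h1 h2 => absurd ⟨h1, h2⟩ h⟩
  choose lg hlg using key
  have hlg' : ∀ l, l = 1 ∨ l = 2 → ∀ L : ℕ, 3 ≤ L → Grow l L (lg l L) := by
    intro l hl L hL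
    exact hlg l L hl (by rcases hl with h | h <;> omega)
  obtain ⟨h1, h2⟩ := last_gen lg hlg'
  refine ⟨h1, fun L => 2 * lg 1 L - lg 2 L, h2, ?_⟩
  have h3 : ∀ l, l = 1 ∨ l = 2 → Tendsto (fun L : ℕ => (L : ℝ) * lg l L) atTop
      (𝓝 (-(Real.sqrt 3 * Real.pi * (9 * (l : ℝ) ^ 2 - 4) / 48))) := by
    intro l hl
    obtain ⟨z, hz, hz'⟩ := hC l hl
    refine hz'.congr' ?_
    filter_upwards [eventually_ge_atTop 3] with L hL
    rw [tendsto_nhds_unique (hz L (by rcases hl with h | h <;> omega)) (hlg' l hl _ hL).1]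
  have h4 := ((h3 1 (Or.inl rfl)).const_mul 2).sub (h3 2 (Or.inr rfl))
  refine (h4.congr fun L => ?_).trans_eq ?_
  · ring
  · congr 1
    push_cast
    ring

end Pool.Agent.CYL
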