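import Pool.Agent.CYL.D.Def
import Pool.Agent.QL.Lift

/-!
# CYL, part D: both paths from the same vertex (the literal event of Q1)

`VP N c`: pairs of crossing paths, both from the bottom vertex `ub N c`, the first one without its starting vertex
disjoint from the second one. Their mass `vm N c` is compared with the mass of the pairs of disjoint crossing paths.
-/

namespace Pool.Agent.CYL

open Pool.Agent.Hhelper14.SAW Pool.Agent.HHP Pool.Agent.QL Pool.Agent.BEX
open scoped ENNReal

/-- Pairs of crossing paths from `ub N c`, `g_1{1,...}` disjoint from `g_2{0,...}`. -/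
def VP {L : ℕ} (N : ℕ) (c : Fin L) : Set (List (CV L) × List (CV L)) :=
  {q | (∃ e, CP N (ub N c) (ut e) q.1) ∧ (∃ e, CP N (ub N c) (ut e) q.2) ∧ ∀ z ∈ q.1.tail, z ∉ q.2}

/-- Their mass. -/
noncomputable def vm {L : ℕ} (N : ℕ) (c : Fin L) : ℝ≥0∞ :=
  ∑' q : VP (L := L) N c, xE ^ (q.1.1.length + q.1.2.length)

/-- Mass of the ordered pairs of disjoint crossing paths with given different starting legs. -/
noncomputable def z2 {L : ℕ} (N : ℕ) (c : Fin 2 → Fin L) : ℝ≥0∞ :=
  open Classical in ∑ e : Fin 2 → Fin L, if Function.Injective e then fm N c e else 0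

namespace Same

variable {L : ℕ}

/-- Pairs of disjoint crossing paths with different starts. -/
def DP (L N : ℕ) : Set (List (CV L) × List (CV L)) :=
  {q | ∃ c1 c2 e1 e2 : Fin L, c1 ≠ c2 ∧ CP N (ub N c1) (ut e1) q.1 ∧ CP N (ub N c2) (ut e2) q.2 ∧
    List.Disjoint q.1 q.2}

lemma md_ne (hL : 2 ≤ L) (c : Fin L) : c ≠ md c 1 := by
  intro h
  have h1 : md c 0 = md c 1 := by rw [md_zero]; exact h
  rw [md_eq_same] at h1
  obtain ⟨k, hk⟩ := h1
  have : (L : ℤ) ∣ 1 := ⟨-k, by linarith⟩
  have := Int.le_of_dvd one_pos this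
  omega

lemma md_ne' (hL : 2 ≤ L) (c : Fin L) : c ≠ md c (-1) := by
  intro h
  have h1 : md c 0 = md c (-1) := by rw [md_zero]; exact h
  rw [md_eq_same] at h1
  obtain ⟨k, hk⟩ := h1
  have : (L : ℤ) ∣ 1 := ⟨k, by linarith⟩
  have := Int.le_of_dvd one_pos this
  omega

/-- The neighbours of a bottom vertex. -/
lemma nbr {N : ℕ} {c : Fin L} {z : CV L} (h : ad (ub N c) z) (hz : z.1 < N) :
    z = ((N : ℤ) - 1, c, true) ∨ z = ((N : ℤ) - 1, md c 1, true) := by
  obtain ⟨n, j, b⟩ := z
  rcases h with h | h
  · exact absurd h.1 (by simp [ub])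
  · obtain ⟨h1, h2, h3⟩ := h
    simp only [ub] at h1 h2 h3 hz
    subst h1
    rcases h3 with ⟨h4, h5⟩ | ⟨h4, h5⟩ | ⟨h4, h5⟩
    · left; rw [h4, h5]
    · right; rw [h4, h5]
    · omega

/-- The neighbours of `P1 (N-1, j)` in its row: the two bottom vertices. -/
lemma nbr' {N : ℕ} {j k : Fin L} (h : ad (ub N k) ((N : ℤ) - 1, j, true)) : k = j ∨ k = md j (-1) := by
  rcases nbr h (by simp) with h | h
  · left
    simpa using (congrArg (fun w : CV L => w.2.1) h).symm
  · right
    have h1 : j = md k 1 := congrArg (fun w : CV L => w.2.1) h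
    rw [h1, md_md]
    simp [md_zero]

lemma md_comm1 (c : Fin L) : md (md c 1) (-1) = c := by
  rw [md_md]; simp [md_zero]

lemma md_comm2 (c : Fin L) : md (md c (-1)) 1 = c := by
  rw [md_md]; simp [md_zero]

/-- An inner vertex of a list has two neighbours. -/
lemma inner {l : List (CV L)} (hc : l.IsChain ad) {p : CV L} (hp : p ∈ l) (h1 : l.head? ≠ some p)
    (h2 : l.getLast? ≠ some p) : ∃ l1 s t l2, l = l1 ++ s :: p :: t :: l2 ∧ ad s p ∧ ad p t := by
  obtain ⟨a, b, rfl⟩ := List.append_of_mem hp
  rcases List.eq_nil_or_concat a with rfl | ⟨a', s, rfl⟩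
  · simp at h1
  rcases b with _ | ⟨t, b'⟩
  · simp at h2
  refine ⟨a', s, t, b', by simp, ?_, ?_⟩
  · have h3 : (a' ++ s :: p :: t :: b').IsChain ad := by simpa using hc
    have h4 := (List.isChain_append.1 h3).2.1
    exact (List.isChain_cons_cons.1 h4).1
  · have h3 : (a' ++ s :: p :: t :: b').IsChain ad := by simpa using hc
    have h4 := (List.isChain_append.1 h3).2.1
    exact (List.isChain_cons_cons.1 (List.isChain_cons_cons.1 h4).2).1

lemma ad_symm {u v : CV L} (h : ad u v) : ad v u := h.symm

/-- The second vertex of a crossing path. -/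
lemma second {N : ℕ} {c e : Fin L} {g : List (CV L)} (h : CP N (ub N c) (ut e) g) :
    ∃ nb r, g = ub N c :: nb :: r ∧ (nb = ((N : ℤ) - 1, c, true) ∨ nb = ((N : ℤ) - 1, md c 1, true)) := by
  obtain ⟨h1, h2, h3, h4, h5⟩ := h
  rcases g with _ | ⟨a, g⟩
  · simp at h4
  have ha : a = ub N c := by simpa using h4
  subst ha
  rcases g with _ | ⟨nb, r⟩
  · simp [ub, ut] at h5
  · exact ⟨nb, r, rfl, nbr (List.isChain_cons_cons.1 h2).1 (h3 nb (by simp)).2⟩

/-- If a path avoids a neighbour of a bottom vertex which is not its start, it avoids the bottom vertex. -/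
lemma avoid {N : ℕ} {c e k : Fin L} {g : List (CV L)} (h : CP N (ub N c) (ut e) g) (hk : k ≠ c)
    {nb : CV L} (hnb : nb = ((N : ℤ) - 1, k, true) ∨ nb = ((N : ℤ) - 1, md k 1, true)) (hg : nb ∉ g) :
    ub N k ∉ g := by
  intro hp
  have h1 : g.head? ≠ some (ub N k) := by
    rw [h.2.2.2.1]
    simp only [ub, ne_eq, Option.some.injEq, Prod.mk.injEq, true_and, and_true]
    exact fun h => hk h.symm
  have h2 : g.getLast? ≠ some (ub N k) := by
    rw [h.2.2.2.2]
    simp [ub, ut]
  obtain ⟨l1, s, t, l2, rfl, hs, ht⟩ := inner h.2.1 hp h1 h2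
  have hs' := nbr (ad_symm hs) (h.2.2.1 s (by simp)).2
  have ht' := nbr ht (h.2.2.1 t (by simp)).2
  have hst : s ≠ t := by
    have := h.1
    simp only [List.nodup_append, List.nodup_cons, List.mem_cons, not_or] at this
    exact this.2.1.1.2.1
  have hm : nb = s ∨ nb = t := by
    rcases hnb with rfl | rfl <;> rcases hs' with rfl | rfl <;> rcases ht' with rfl | rfl <;>
      first
        | exact absurd rfl hst
        | exact Or.inl rfl
        | exact Or.inr rfl
  rcases hm with rfl | rfl
  · exact hg (by simp)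
  · exact hg (by simp)

/-- A covering lemma. -/
lemma cover {α β ι : Type*} [Fintype ι] (f : α → ℝ≥0∞) (f' : β → ℝ≥0∞) {γ : Type*} (v : α → γ)
    (hv : Function.Injective v) (ψ : ι → β → γ) (h : ∀ a, ∃ i b, ψ i b = v a ∧ f a ≤ f' b) :
    ∑' a, f a ≤ Fintype.card ι * ∑' b, f' b := by
  choose i b h1 h2 using h
  have hinj : Function.Injective (fun a => (i a, b a)) := by
    intro a a' haa
    simp only [Prod.mk.injEq] at haa
    apply hv
    rw [← h1 a, ← h1 a', haa.1, haa.2]
  calc ∑' a, f a ≤ ∑' a, (fun p : ι × β => f' p.2) (i a, b a) := ENNReal.tsum_le_tsum h2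
    _ ≤ ∑' p : ι × β, f' p.2 := ENNReal.tsum_comp_le_tsum_of_injective hinj _
    _ = ∑' _ : ι, ∑' b, f' b := ENNReal.tsum_prod (f := fun (_ : ι) (b : β) => f' b)
    _ = Fintype.card ι * ∑' b, f' b := by
      rw [tsum_fintype, Finset.sum_const, nsmul_eq_mul]
      rfl

/-- The three ways back. -/
def psi (N : ℕ) (c : Fin L) (i : Fin 3) (q : List (CV L) × List (CV L)) : List (CV L) × List (CV L) :=
  if i = 0 then (q.1, ub N c :: ((N : ℤ) - 1, c, true) :: q.2)
  else if i = 1 then (q.1, ub N c :: ((N : ℤ) - 1, md c 1, true) :: q.2)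
  else (q.1, ub N c :: q.2.tail)

/-- The surgery. -/
lemma surgery {N : ℕ} (hL : 2 ≤ L) {c : Fin L} {q : List (CV L) × List (CV L)} (hq : q ∈ VP N c) :
    ∃ (i : Fin 3) (q' : List (CV L) × List (CV L)), q' ∈ DP L N ∧ psi N c i q' = q ∧
      q'.1.length + q'.2.length ≤ q.1.length + q.2.length := by
  obtain ⟨w, w'⟩ := q
  obtain ⟨⟨e1, h1⟩, ⟨e2, h2⟩, h3⟩ := hq
  simp only at h1 h2 h3
  obtain ⟨nb, r, rfl, hnb⟩ := second h2
  obtain ⟨nb1, r1, rfl, hnb1⟩ := second h1
  -- the other bottom neighbour of `nb`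
  obtain ⟨k, hk, hk1, hk2, hkr⟩ : ∃ k : Fin L, k ≠ c ∧ ad (ub N k) nb ∧
      (nb = ((N : ℤ) - 1, k, true) ∨ nb = ((N : ℤ) - 1, md k 1, true)) ∧
      ∀ k', ad (ub N k') nb → k' = k ∨ k' = c := by
    rcases hnb with rfl | rfl
    · refine ⟨md c (-1), (md_ne' hL c).symm, ?_, Or.inr (by rw [md_comm2]), ?_⟩
      · right
        exact ⟨rfl, rfl, Or.inr (Or.inl ⟨rfl, md_comm2 c⟩)⟩
      · intro k' h
        rcases nbr' h with rfl | rfl
        · right; rfl
        · left; rfl
    · refine ⟨md c 1, (md_ne hL c).symm, ?_, Or.inl rfl, ?_⟩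
      · right
        exact ⟨rfl, rfl, Or.inl ⟨rfl, rfl⟩⟩
      · intro k' h
        rcases nbr' h with rfl | rfl
        · left; rfl
        · right; rw [md_comm1]
  have hnd2 := h2.1
  have hnd1 := h1.1
  have hw : nb ∉ ub N c :: nb1 :: r1 := by
    intro hm
    rcases List.mem_cons.1 hm with h | h
    · rcases hnb with rfl | rfl <;> simp [ub] at h
    · exact h3 nb (by simpa using h) (by simp)
  have hwk : ub N k ∉ ub N c :: nb1 :: r1 := avoid h1 hk hk2 hw
  by_cases hr : r.head? = some (ub N k)
  · -- case (i)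
    obtain ⟨r', rfl⟩ : ∃ r', r = ub N k :: r' := by
      rcases r with _ | ⟨a, r'⟩
      · simp at hr
      · exact ⟨r', by simpa using hr⟩
    have hCP : CP N (ub N k) (ut e2) (ub N k :: r') := by
      obtain ⟨a1, a2, a3, a4, a5⟩ := h2
      refine ⟨?_, ?_, ?_, rfl, ?_⟩
      · exact (List.nodup_cons.1 (List.nodup_cons.1 a1).2).2
      · exact (List.isChain_cons_cons.1 (List.isChain_cons_cons.1 a2).2).2
      · intro z hz
        exact a3 z (List.mem_cons_of_mem _ (List.mem_cons_of_mem _ hz))
      · simpa using a5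
    have hdis : List.Disjoint (ub N c :: nb1 :: r1) (ub N k :: r') := by
      intro z hz hz'
      rcases List.mem_cons.1 hz with rfl | hz
      · exact (List.nodup_cons.1 hnd2).1 (List.mem_cons_of_mem _ hz')
      · exact h3 z (by simpa using hz) (List.mem_cons_of_mem _ (List.mem_cons_of_mem _ hz'))
    have hDP : ((ub N c :: nb1 :: r1, ub N k :: r') : List (CV L) × List (CV L)) ∈ DP L N :=
      ⟨c, k, e1, e2, fun h => hk h.symm, h1, hCP, hdis⟩
    rcases hnb with rfl | rfl
    · exact ⟨0, _, hDP, by simp [psi], by simp⟩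
    · exact ⟨1, _, hDP, by simp [psi], by simp⟩
  · -- case (ii)
    have hp2 : ub N k ∉ nb :: r := by
      intro hp
      have hp' : ub N k ∈ ub N c :: nb :: r := List.mem_cons_of_mem _ hp
      have b1 : (ub N c :: nb :: r).head? ≠ some (ub N k) := by
        simp only [ub, List.head?_cons, ne_eq, Option.some.injEq, Prod.mk.injEq, true_and, and_true]
        exact fun h => hk h.symm
      have b2 : (ub N c :: nb :: r).getLast? ≠ some (ub N k) := by
        rw [h2.2.2.2.2]
        simp [ub, ut]
      obtain ⟨l1, s, t, l2, hl, hs, ht⟩ := inner h2.2.1 hp' b1 b2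
      have hs' := nbr (ad_symm hs) (h2.2.2.1 s (by rw [hl]; simp)).2
      have ht' := nbr ht (h2.2.2.1 t (by rw [hl]; simp)).2
      have hnd := hnd2
      rw [hl] at hnd
      have hst : s ≠ t := by
        simp only [List.nodup_append, List.nodup_cons, List.mem_cons, not_or] at hnd
        exact hnd.2.1.1.2.1
      have hm : nb = s ∨ nb = t := by
        rcases hk2 with rfl | rfl <;> rcases hs' with rfl | rfl <;> rcases ht' with rfl | rfl <;>
          first
            | exact absurd rfl hst
            | exact Or.inl rfl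
            | exact Or.inr rfl
      -- position of `nb`
      rcases l1 with _ | ⟨x, l1⟩
      · -- `s` is the first vertex
        simp only [List.nil_append, List.cons.injEq] at hl
        obtain ⟨rfl, h5, -⟩ := hl
        rcases hk2 with h | h <;> simp [h, ub] at h5
      · rcases l1 with _ | ⟨x', l1⟩
        · simp only [List.cons_append, List.nil_append, List.cons.injEq] at hl
          obtain ⟨-, -, h6⟩ := hl
          exact hr (by rw [h6]; rfl)
        · simp only [List.cons_append, List.cons.injEq] at hl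
          obtain ⟨-, rfl, h6⟩ := hl
          simp only [List.cons_append, List.nodup_cons] at hnd
          rcases hm with rfl | rfl
          · exact hnd.2.1 (by simp)
          · exact hnd.2.1 (by simp)
    have hCP : CP N (ub N k) (ut e2) (ub N k :: nb :: r) := by
      obtain ⟨a1, a2, a3, a4, a5⟩ := h2
      refine ⟨?_, ?_, ?_, rfl, ?_⟩
      · exact List.nodup_cons.2 ⟨hp2, (List.nodup_cons.1 a1).2⟩
      · exact List.isChain_cons_cons.2 ⟨hk1, (List.isChain_cons_cons.1 a2).2⟩
      · intro z hz
        rcases List.mem_cons.1 hz with rfl | hz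
        · exact a3 (ub N c) (by simp)
        · exact a3 z (List.mem_cons_of_mem _ hz)
      · simpa using a5
    have hdis : List.Disjoint (ub N c :: nb1 :: r1) (ub N k :: nb :: r) := by
      intro z hz hz'
      rcases List.mem_cons.1 hz' with rfl | hz'
      · exact hwk hz
      · rcases List.mem_cons.1 hz with rfl | hz
        · exact (List.nodup_cons.1 hnd2).1 hz'
        · exact h3 z (by simpa using hz) (List.mem_cons_of_mem _ hz')
    have hDP : ((ub N c :: nb1 :: r1, ub N k :: nb :: r) : List (CV L) × List (CV L)) ∈ DP L N :=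
      ⟨c, k, e1, e2, fun h => hk h.symm, h1, hCP, hdis⟩
    exact ⟨2, _, hDP, by simp [psi], by simp⟩

lemma pow_le_of_len {a b : ℕ} (h : b ≤ a) : xE ^ a ≤ xE ^ b := pow_le_pow_right_of_le_one' xE_le h

/-- The mass of the disjoint pairs. -/
lemma DP_le (N : ℕ) : ∑' q : DP L N, xE ^ (q.1.1.length + q.1.2.length) ≤ Zc L 2 N := by
  classical
  set F : (Fin 2 → Fin L) → (Fin 2 → Fin L) → (Fin 2 → List (CV L)) → ℝ≥0∞ := fun c e g =>
    if (Function.Injective c ∧ Function.Injective e) ∧ Fam N c e g then xE ^ (∑ k, (g k).length) else 0 with hF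
  have h1 : Zc L 2 N = ∑ c, ∑ e, ∑' g, F c e g := by
    unfold Zc
    refine Finset.sum_congr rfl fun c _ => Finset.sum_congr rfl fun e _ => ?_
    by_cases h : Function.Injective c ∧ Function.Injective e
    · rw [if_pos h]
      unfold fm
      refine (tsum_subtype {g | Fam N c e g} (fun g => xE ^ (∑ k, (g k).length))).trans ?_
      refine tsum_congr fun g => ?_
      simp only [hF, h, true_and, Set.indicator_apply, Set.mem_ofPred_eq]
    · rw [if_neg h]
      simp [hF, h]
  have h2 : Zc L 2 N = ∑' g, ∑ c, ∑ e, F c e g := by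
    rw [h1, Summable.tsum_finsetSum (fun _ _ => ENNReal.summable)]
    refine Finset.sum_congr rfl fun c _ => ?_
    rw [Summable.tsum_finsetSum (fun _ _ => ENNReal.summable)]
  have h3 : Zc L 2 N = ∑' q : List (CV L) × List (CV L), ∑ c, ∑ e, F c e ![q.1, q.2] := by
    rw [h2, ← (finTwoArrowEquiv (List (CV L))).symm.tsum_eq]
    rfl
  rw [h3, tsum_subtype (DP L N) (fun q => xE ^ (q.1.length + q.2.length))]
  refine ENNReal.tsum_le_tsum fun q => ?_
  rw [Set.indicator_apply]
  split_ifs with hq
  · obtain ⟨c1, c2, e1, e2, hc, h4, h5, h6⟩ := hq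
    have he : e1 ≠ e2 := by
      rintro rfl
      exact h6 (List.mem_of_getLast? h4.2.2.2.2) (List.mem_of_getLast? h5.2.2.2.2)
    have inj2 : ∀ {a b : Fin L}, a ≠ b → Function.Injective ![a, b] := by
      intro a b hab i j hij
      fin_cases i <;> fin_cases j <;> simp_all
    have h7 : Fam N ![c1, c2] ![e1, e2] ![q.1, q.2] := by
      refine ⟨?_, ?_⟩
      · intro k
        fin_cases k
        · exact h4
        · exact h5
      · intro k k' hk
        fin_cases k <;> fin_cases k'
        · exact absurd rfl hk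
        · exact h6
        · exact h6.symm
        · exact absurd rfl hk
    have h8 : xE ^ (q.1.length + q.2.length) = F ![c1, c2] ![e1, e2] ![q.1, q.2] := by
      simp only [hF]
      rw [if_pos ⟨⟨inj2 hc, inj2 he⟩, h7⟩]
      simp [Fin.sum_univ_two]
    rw [h8]
    refine le_trans ?_ (Finset.single_le_sum (f := fun c => ∑ e, F c e ![q.1, q.2])
      (fun _ _ => zero_le) (Finset.mem_univ ![c1, c2]))
    exact Finset.single_le_sum (f := fun e => F ![c1, c2] e ![q.1, q.2])
      (fun _ _ => zero_le) (Finset.mem_univ ![e1, e2])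
  · exact zero_le

end Same

open Same

/-- Upper bound of the mass of the pairs from the same vertex. -/
theorem vm_le {L : ℕ} (hL : 2 ≤ L) (N : ℕ) (c : Fin L) : vm N c ≤ 3 * Zc L 2 N := by
  refine le_trans (cover (ι := Fin 3) (f := fun q : VP (L := L) N c => xE ^ (q.1.1.length + q.1.2.length))
    (f' := fun q : DP L N => xE ^ (q.1.1.length + q.1.2.length)) (fun q => q.1) Subtype.val_injective
    (fun i q => psi N c i q.1) ?_) ?_
  · rintro ⟨q, hq⟩
    obtain ⟨i, q', h1, h2, h3⟩ := surgery hL hq
    exact ⟨i, ⟨q', h1⟩, h2, pow_le_of_len h3⟩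
  · simp only [Fintype.card_fin]
    exact mul_le_mul_right (DP_le N) 3

/-- Lower bound of the mass of the pairs from the same vertex. -/
theorem le_vm {L : ℕ} (hL : 2 ≤ L) (N : ℕ) (c : Fin L) :
    xE ^ 4 * z2 N ![c, md c 1] ≤ vm (N + 1) c := by
  classical
  set T := Σ e : {e : Fin 2 → Fin L // Function.Injective e}, {g : Fin 2 → List (CV L) // Fam N ![c, md c 1] e.1 g}
    with hT
  have h1 : xE ^ 4 * z2 N ![c, md c 1] = ∑' s : T, xE ^ ((∑ k, (s.2.1 k).length) + 4) := by
    have h2 : z2 N ![c, md c 1] = ∑' s : T, xE ^ (∑ k, (s.2.1 k).length) := by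
      rw [ENNReal.tsum_sigma' (fun s : T => xE ^ (∑ k, (s.2.1 k).length))]
      unfold z2
      rw [← Finset.sum_filter]
      rw [tsum_fintype]
      rw [Finset.sum_subtype (p := Function.Injective) _ (fun e => by simp)]
      rfl
    rw [h2, ← ENNReal.tsum_mul_left]
    refine tsum_congr fun s => ?_
    rw [pow_add, mul_comm]
  have hmem : ∀ (e : Fin 2 → Fin L) (g : Fin 2 → List (CV L)), Fam N ![c, md c 1] e g →
      ((ub (N + 1) c :: (((N + 1 : ℕ) : ℤ) - 1, c, true) :: g 0,
        ub (N + 1) c :: (((N + 1 : ℕ) : ℤ) - 1, md c 1, true) :: g 1) :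
        List (CV L) × List (CV L)) ∈ VP (N + 1) c := by
    intro e g hg
    have hN : ((N + 1 : ℕ) : ℤ) - 1 = N := by push_cast; ring
    have g0 := hg.1 0
    have g1 := hg.1 1
    have key : ∀ (j : Fin L) (e' : Fin L) (l : List (CV L)), (j = c ∨ j = md c 1) → CP N (ub N j) (ut e') l →
        CP (N + 1) (ub (N + 1) c) (ut e') (ub (N + 1) c :: (((N + 1 : ℕ) : ℤ) - 1, j, true) :: l) := by
      intro j e' l hj hl
      obtain ⟨a1, a2, a3, a4, a5⟩ := hl
      refine ⟨?_, ?_, ?_, rfl, ?_⟩
      · refine List.nodup_cons.2 ⟨?_, List.nodup_cons.2 ⟨?_, a1⟩⟩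
        · intro h
          rcases List.mem_cons.1 h with h | h
          · simp [ub] at h
          · have := (a3 _ h).2
            simp only [ub, hN] at this
            omega
        · intro h
          have := (a3 _ h).2
          simp only [hN] at this
          omega
      · refine List.isChain_cons_cons.2 ⟨?_, ?_⟩
        · right
          refine ⟨rfl, rfl, ?_⟩
          rcases hj with rfl | rfl
          · left; exact ⟨rfl, rfl⟩
          · right; left; exact ⟨rfl, rfl⟩
        · rcases l with _ | ⟨x, l⟩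
          · simp at a4
          · have hx : x = ub N j := by simpa using a4
            subst hx
            refine List.isChain_cons_cons.2 ⟨?_, a2⟩
            left
            refine ⟨rfl, rfl, Or.inr (Or.inr ⟨?_, rfl⟩)⟩
            simp only [ub]
            push_cast
            ring
      · intro z hz
        rcases List.mem_cons.1 hz with rfl | hz
        · simp only [ub]
          push_cast
          constructor <;> omega
        rcases List.mem_cons.1 hz with rfl | hz
        · push_cast
          constructor <;> omega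
        · have := a3 z hz
          push_cast
          constructor <;> omega
      · rcases l with _ | ⟨x, l⟩
        · simp at a4
        · simpa using a5
    refine ⟨⟨e 0, key c (e 0) _ (Or.inl rfl) g0⟩, ⟨e 1, key (md c 1) (e 1) _ (Or.inr rfl) g1⟩, ?_⟩
    intro z hz hz'
    simp only [List.tail_cons] at hz
    rcases List.mem_cons.1 hz with rfl | hz
    · rcases List.mem_cons.1 hz' with h | h
      · simp [ub] at h
      rcases List.mem_cons.1 h with h | h
      · exact md_ne hL c (congrArg (fun w : CV L => w.2.1) h)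
      · have := (g1.2.2.1 _ h).2
        simp only [hN] at this
        omega
    · have hzN := (g0.2.2.1 _ hz).2
      rcases List.mem_cons.1 hz' with rfl | h
      · simp only [ub, hN] at hzN
        omega
      rcases List.mem_cons.1 h with rfl | h
      · simp only [hN] at hzN
        omega
      · exact hg.2 0 1 (by decide) hz h
  rw [h1]
  unfold vm
  let φ : T → VP (L := L) (N + 1) c := fun s => ⟨_, hmem s.1.1 s.2.1 s.2.2⟩
  have hφ : Function.Injective φ := by
    rintro ⟨⟨e, he⟩, ⟨g, hg⟩⟩ ⟨⟨e', he'⟩, ⟨g', hg'⟩⟩ h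
    have h2 := congrArg Subtype.val h
    simp only [φ, Prod.mk.injEq, List.cons.injEq, true_and] at h2
    obtain ⟨h3, h4⟩ := h2
    have h5 : g = g' := by
      funext k
      fin_cases k
      · exact h3
      · exact h4
    subst h5
    have h6 : e = e' := by
      funext k
      have a := (hg.1 k).2.2.2.2
      have b := (hg'.1 k).2.2.2.2
      rw [a] at b
      simpa [ut] using b
    subst h6
    rfl
  calc ∑' s : T, xE ^ ((∑ k, (s.2.1 k).length) + 4)
      = ∑' s : T, (fun q : VP (L := L) (N + 1) c => xE ^ (q.1.1.length + q.1.2.length)) (φ s) := by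
        refine tsum_congr fun s => ?_
        simp only [φ, List.length_cons, Fin.sum_univ_two]
        congr 1
        omega
    _ ≤ _ := ENNReal.tsum_comp_le_tsum_of_injective hφ _

end Pool.Agent.CYL
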